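import Pool.Agent.P.MP_10af71_co.Step3
import Pool.Agent.P.MP_10af71_co.S35g1
import Pool.Agent.P.MP_10af71_co.S35g5
import Pool.Agent.P.MP_10af71_co.S35g7

open Finset Pool.Agent.P.MP_10af71_co

namespace Pool.Agent.Results.MP_10af71_co.Classification

lemma small35 {A : Finset (ZMod 35)} (hA : A.card = 11) {g : ZMod 35} (hgA : g ∉ A.subsetSum) :
    Concl 35 [] A :=
  concl_of_search' [] [1, 5, 7] (by
    intro g hg
    simp only [List.mem_cons, List.not_mem_nil, or_false] at hg
    rcases hg with rfl | rfl | rfl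
    · exact ⟨by norm_num, search35_1⟩
    · exact ⟨by norm_num, search35_5⟩
    · exact ⟨by norm_num, search35_7⟩) (by decide +kernel) hA hgA

lemma norm_iff {n : ℕ} (A : Finset (ZMod n)) (b : (ZMod n)ˣ) :
    ∑ x ∈ A.image (fun a => (b : ZMod n) * a), |x.valMinAbs| ≤ (n : ℤ) - 2 ↔
      ∑ x ∈ A, ((b : ZMod n) * x).valMinAbs.natAbs + 2 ≤ n := by
  rw [sum_image (b.isUnit.mul_right_injective.injOn)]
  have : ∑ x ∈ A, |((b : ZMod n) * x).valMinAbs| =
      ((∑ x ∈ A, ((b : ZMod n) * x).valMinAbs.natAbs : ℕ) : ℤ) := by push_cast; rfl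
  rw [this]; omega

lemma concl_nil {n : ℕ} {A : Finset (ZMod n)} (h : Concl n [] A) (hA : A.Nonempty) :
    ∃ b : (ZMod n)ˣ, ∑ x ∈ A, ((b : ZMod n) * x).valMinAbs.natAbs + 2 ≤ n := by
  obtain ⟨b, h | h⟩ := h
  · exact ⟨b, h⟩
  · obtain ⟨x, hx⟩ := hA
    simpa using h x hx

/-- Let `p ≤ q` be primes with `3 ≤ p ≤ q ≤ p + ⌊2 √(p-2)⌋ + 1` and let `A ⊆ ℤ/(pq)` have
`p + q - 1` elements.  Then the subset sums of `A` miss an element if and only if some dilate of
`A` by a unit has norm at most `pq - 2`, or `(p, q) = (3, 5)` and `A` is a dilate by a unit of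
`{-6, -5, -4, -1, 0, 1, 4}`. -/
theorem result (p q : ℕ) (hp : p.Prime) (hq : q.Prime) (h3 : 3 ≤ p) (hpq : p ≤ q)
    (hrange : (q : ℤ) ≤ p + ⌊2 * Real.sqrt ((p : ℝ) - 2)⌋ + 1)
    (A : Finset (ZMod (p * q))) (hA : A.card = p + q - 1) :
    (A.subsetSum : Set (ZMod (p * q))) ≠ Set.univ ↔
      (∃ b : (ZMod (p * q))ˣ,
        ∑ x ∈ A.image (fun a => (b : ZMod (p * q)) * a), |x.valMinAbs| ≤ (p * q : ℤ) - 2) ∨
      (p = 3 ∧ q = 5 ∧ ∃ b : (ZMod (p * q))ˣ,
        A = ({-6, -5, -4, -1, 0, 1, 4} : Finset (ZMod (p * q))).image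
          (fun a => (b : ZMod (p * q)) * a)) := by
  have : NeZero (p * q) := ⟨Nat.mul_ne_zero hp.ne_zero hq.ne_zero⟩
  have hcast : (p * q : ℤ) = ((p * q : ℕ) : ℤ) := by push_cast; rfl
  rw [hcast]
  simp only [norm_iff, Set.ne_univ_iff_exists_notMem, mem_coe]
  constructor
  · rintro ⟨g, hg⟩
    by_cases h7 : 7 ≤ p
    · left
      have := Fact.mk hp
      have := Fact.mk hq
      exact main_large h7 hpq (by omega) hg
    have hne : A.Nonempty := card_pos.1 (by omega)
    have hp' : p = 3 ∨ p = 5 := by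
      have : p < 7 := by omega
      interval_cases p <;> simp_all (config := { decide := true })
    have hfl : ⌊2 * Real.sqrt ((p : ℝ) - 2)⌋ < 4 ∧ (p = 3 → ⌊2 * Real.sqrt ((p : ℝ) - 2)⌋ < 3) := by
      constructor
      · rw [Int.floor_lt]
        have : Real.sqrt ((p : ℝ) - 2) < 2 := by
          rw [Real.sqrt_lt' (by norm_num)]
          rcases hp' with rfl | rfl <;> norm_num
        push_cast; linarith
      · intro hp3
        rw [Int.floor_lt]
        have : Real.sqrt ((p : ℝ) - 2) < 3 / 2 := by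
          rw [Real.sqrt_lt' (by norm_num), hp3]; norm_num
        push_cast; linarith
    rcases hp' with rfl | rfl
    · have hq6 : q ≤ 6 := by have := hfl.2 rfl; omega
      have hq' : q = 3 ∨ q = 5 := by
        interval_cases q <;> simp_all (config := { decide := true })
      rcases hq' with rfl | rfl
      · left; exact concl_nil (small9 hA hg) hne
      · obtain ⟨b, h | h⟩ := small15 hA hg
        · left; exact ⟨b, h⟩
        · right
          refine ⟨rfl, rfl, b, eq_of_subset_of_card_le ?_ ?_⟩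
          · intro x hx
            obtain ⟨y, hy, rfl⟩ := h x hx
            apply mem_image_of_mem
            clear hx
            revert y
            decide +kernel
          · rw [hA]
            exact card_image_le.trans (by decide +kernel)
    · have hq6 : q ≤ 9 := by have := hfl.1; omega
      have hq' : q = 5 ∨ q = 7 := by
        interval_cases q <;> simp_all (config := { decide := true })
      rcases hq' with rfl | rfl
      · left; exact concl_nil (small25 hA hg) hne
      · left; exact concl_nil (small35 hA hg) hne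
  · rintro (⟨b, hb⟩ | ⟨rfl, rfl, b, rfl⟩)
    · rw [← sum_image (f := fun x : ZMod (p * q) => x.valMinAbs.natAbs)
        (b.isUnit.mul_right_injective.injOn)] at hb
      obtain ⟨g, hg⟩ := not_span_of_norm_le hb
      refine ⟨(b⁻¹ : (ZMod (p * q))ˣ) * g, fun h => hg ?_⟩
      have := mem_subsetSum_image_mul h b.isUnit
      simpa using this
    · refine ⟨b * 2, fun h => ?_⟩
      have := mem_subsetSum_of_image_mul b.isUnit h
      revert this
      decide +kernel

end Pool.Agent.Results.MP_10af71_co.Classification
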